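import Pool.Agent.J4.H52.LightFaces.Upper
import Pool.Agent.J4.H52.LightFaces.Example

set_option autoImplicit false

/-!
# The optimal coefficient of `f_{5,5,7}` is 5

`(∗_c)` is the inequality `18 f₅₅₅ + 9 f₅₅₆ + c f₅₅₇ + 4 f₅₆₆ ≥ 144` for plane graphs of minimum
degree at least 5, and `c* = inf {c ≥ 0 : (∗_c) holds for all of them}`.  We prove `c* = 5`, both
bounds included: the upper bound is Borodin's inequality, proved here by discharging, and the lower
bound comes from a plane triangulation with 114 vertices, with degrees 5, 6, 7, 8, for which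
`f₅₅₅ = f₅₅₆ = 0` and `f₅₅₇ = f₅₆₆ = 16`.
-/

namespace Pool.Agent.Results.MP_cadcf7_co.OptimalCoefficientFive

open Pool.J4.H52.LightFaces

/-- **The optimal coefficient.** For a real number `c`, the inequality
`18 f₅₅₅ + 9 f₅₅₆ + c f₅₅₇ + 4 f₅₆₆ ≥ 144` holds for every finite simple plane graph of minimum
degree at least five if and only if `5 ≤ c`; in particular `c* = 5`. -/
theorem result :
    (∀ c : ℝ, (∀ P : PlaneGraph, P.MinDegFive →
      144 ≤ 18 * (P.f 5 5 5 : ℝ) + 9 * (P.f 5 5 6 : ℝ) + c * (P.f 5 5 7 : ℝ) +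
        4 * (P.f 5 6 6 : ℝ)) ↔ 5 ≤ c) ∧
    IsLeast admissible 5 ∧ cStar = 5 := by
  have h : ∀ c : ℝ, (∀ P : PlaneGraph, P.MinDegFive → P.Star c) ↔ 5 ≤ c := by
    intro c
    constructor
    · intro h
      have h1 := h ex ex_min
      rcases le_or_gt 0 c with h0 | h0
      · exact five_le_of_star h0 h1
      · exfalso
        unfold PlaneGraph.Star at h1
        rw [ex_f555, ex_f556] at h1
        have h2 : (ex.f 5 6 6 : ℝ) ≤ 16 := by exact_mod_cast ex_f566
        have h3 : c * (ex.f 5 5 7 : ℝ) ≤ 0 :=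
          mul_nonpos_of_nonpos_of_nonneg h0.le (Nat.cast_nonneg _)
        push_cast at h1
        linarith
    · intro hc P hP
      have h1 := PlaneGraph.star_five hP
      unfold PlaneGraph.Star at h1 ⊢
      have h2 : 5 * (P.f 5 5 7 : ℝ) ≤ c * (P.f 5 5 7 : ℝ) :=
        mul_le_mul_of_nonneg_right hc (Nat.cast_nonneg _)
      linarith
  have hleast : IsLeast admissible 5 :=
    ⟨⟨by norm_num, (h 5).mpr le_rfl⟩, fun c hc => (h c).mp hc.2⟩
  exact ⟨h, hleast, hleast.csInf_eq⟩

end Pool.Agent.Results.MP_cadcf7_co.OptimalCoefficientFive
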